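import Pool.Agent.Lib.MP_3dbc4a_an_W.Defs

/-!
# MP_3dbc4a_an, project W, block L: words of letters as words of symbols
-/

set_option autoImplicit false

open Filter Set
open scoped Topology

namespace Pool.Agent.WildW

/-- symbols of a shifted word -/
theorem symOf_shift (s : ℤ → Lt) (m : ℤ) : symOf (shiftW s m) = shiftW (symOf s) m := rfl

theorem symOf_p {s : ℤ → Lt} {n : ℤ} {c : Pl} : symOf s n = .p c ↔ s n = .p c := by
  unfold symOf
  constructor
  · intro h
    cases h1 : s n with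
    | p c' =>
      rw [h1] at h
      simp only [Lt.sym, Sym.p.injEq] at h
      rw [h]
    | d i =>
      rw [h1] at h
      exact absurd h (by simp [Lt.sym])
  · intro h
    rw [h]
    rfl

theorem symOf_d {s : ℤ → Lt} {n : ℤ} {i : Fin 8} : symOf s n = .d i ↔ s n = .d i := by
  unfold symOf
  constructor
  · intro h
    cases h1 : s n with
    | p c' =>
      rw [h1] at h
      exact absurd h (by simp [Lt.sym])
    | d i' =>
      rw [h1] at h
      simp only [Lt.sym, Sym.d.injEq] at h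
      rw [h]
  · intro h
    rw [h]
    rfl

theorem symOf_pin {s : ℤ → Lt} {n : ℤ} {v : ℝ} : symOf s n ≠ .pin v := by
  unfold symOf
  cases s n <;> simp [Lt.sym]

/-- admissibility of a word of letters -/
theorem adm_iff {s : ℤ → Lt} : Adm (symOf s) ↔
    ∀ n j, s n = .p (.f j) → (∃ j', s (n + 1) = .p (.f j')) ∨ s (n + 1) = .p .g := by
  constructor
  · intro h n j hn
    rcases h.1 n j (symOf_p.2 hn) with ⟨j', h1⟩ | h1 | ⟨v, h1, -⟩
    · exact Or.inl ⟨j', symOf_p.1 h1⟩
    · exact Or.inr (symOf_p.1 h1)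
    · exact absurd h1 symOf_pin
  · intro h
    refine ⟨fun n j hn => ?_, fun n v hn => absurd hn symOf_pin⟩
    rcases h n j (symOf_p.1 hn) with ⟨j', h1⟩ | h1
    · exact Or.inl ⟨j', symOf_p.2 h1⟩
    · exact Or.inr (Or.inl (symOf_p.2 h1))

/-- admissibility is a local property -/
theorem adm_local {s ξ : ℤ → Lt} (hs : Adm (symOf s))
    (h : ∀ n : ℤ, ∃ m : ℤ, s (m + n) = ξ n ∧ s (m + (n + 1)) = ξ (n + 1)) :
    Adm (symOf ξ) := by
  rw [adm_iff] at hs ⊢
  intro n j hn
  obtain ⟨m, h1, h2⟩ := h n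
  rw [← h1] at hn
  have h3 := hs _ _ hn
  rw [show m + n + 1 = m + (n + 1) by ring, h2] at h3
  exact h3

theorem adm_shift {s : ℤ → Lt} (hs : Adm (symOf s)) (m : ℤ) : Adm (symOf (shiftW s m)) := by
  refine adm_local hs fun n => ⟨m, ?_, ?_⟩
  · show s (m + n) = s (n + m)
    rw [add_comm]
  · show s (m + (n + 1)) = s (n + 1 + m)
    rw [add_comm]

end Pool.Agent.WildW
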