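import Pool.Agent.Lib.MP_3dbc4a_an_WL.Base
import Pool.Agent.Lib.MP_3dbc4a_an_WL.Sy

/-!
# MP_3dbc4a_an, project W, block L: the set of limit words
-/

set_option autoImplicit false

open Filter Set
open scoped Topology

namespace Pool.Agent.WildW

private theorem Cl_window_open (ξ : ℤ → Lt) (r : ℕ) :
    IsOpen {η : ℤ → Lt | ∀ k : ℤ, |k| ≤ r → η k = ξ k} := by
  have h1 : {η : ℤ → Lt | ∀ k : ℤ, |k| ≤ r → η k = ξ k} =
      ⋂ k ∈ Set.Icc (-(r : ℤ)) r, (fun η : ℤ → Lt => η k) ⁻¹' {ξ k} := by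
    ext η
    simp only [mem_ofPred_eq, mem_iInter, mem_preimage, mem_singleton_iff, mem_Icc, abs_le]
  rw [h1]
  exact (Set.finite_Icc _ _).isOpen_biInter fun k _ =>
    (isOpen_discrete _).preimage (continuous_apply k)

/-- Proof: the complement is open: if for some `r`, `N` no window of `s` at `n ≥ N` agrees with `ξ`
on `[-r, r]` then the same holds for all words which agree with `ξ` on `[-r, r]`, and these form
an open set (finite intersection of preimages of points under the continuous evaluations; `Lt`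
is discrete; `isOpen_biInter_finset` with `Finset.Icc (-r) r` or `isOpen_set_pi`). -/
theorem LL_closed (s : ℤ → Lt) : IsClosed (LL s) := by
  refine isClosed_of_closure_subset fun ξ hξ r N => ?_
  obtain ⟨η, hη1, hη2⟩ := mem_closure_iff.1 hξ _ (Cl_window_open ξ r) (fun k _ => rfl)
  obtain ⟨n, hn, hw⟩ := hη2 r N
  exact ⟨n, hn, fun k hk => (hw k hk).trans (hη1 k hk)⟩

/-- Proof: use the definition for `r + |m|` and `N + |m|`, and take the time `n + m`. -/
theorem LL_shift {s ξ : ℤ → Lt} (hξ : ξ ∈ LL s) (m : ℤ) : shiftW ξ m ∈ LL s := by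
  intro r N
  obtain ⟨n, hn, hw⟩ := hξ (r + m.natAbs) (N + m.natAbs)
  have e0 : ((r + m.natAbs : ℕ) : ℤ) = r + |m| := by
    rw [Nat.cast_add, Int.natCast_natAbs]
  have e1 : ((N + m.natAbs : ℕ) : ℤ) ≤ (n : ℤ) := by exact_mod_cast hn
  rw [Nat.cast_add, Int.natCast_natAbs] at e1
  rw [e0] at hw
  have h1 := neg_abs_le m
  have h2 : ((n + m).toNat : ℤ) = n + m := Int.toNat_of_nonneg (by
    have : (0 : ℤ) ≤ N := Int.natCast_nonneg _
    linarith)
  refine ⟨(n + m).toNat, ?_, fun k hk => ?_⟩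
  · have h3 : (N : ℤ) ≤ ((n + m).toNat : ℤ) := by
      rw [h2]
      linarith
    exact_mod_cast h3
  · show s (((n + m).toNat : ℤ) + k) = ξ (k + m)
    rw [h2, ← hw (k + m) (by
      have := abs_add_le k m
      linarith)]
    congr 1
    ring

/-- **L1** compactness. Proof: `ℤ → Lt` is compact (`Lt` is finite) and first countable, so
`isCompact_univ.tendsto_subseq` for the sequence `q ↦ (k ↦ s (n q + k))` gives `ξ` and `φ`;
convergence in a product of discrete spaces: for every `k` the letters are eventually equal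
(`tendsto_pi_nhds`, `nhds_discrete`), and `[-r, r]` is finite (`Filter.eventually_all_finset` or
`Set.Finite.eventually_all`). `ξ ∈ LL s`: take `q` large, `n (φ q) ≥ N`. -/
theorem LL_cluster (s : ℤ → Lt) {n : ℕ → ℕ} (hn : Tendsto n atTop atTop) :
    ∃ ξ ∈ LL s, ∃ φ : ℕ → ℕ, StrictMono φ ∧
      ∀ r : ℕ, ∀ᶠ q in atTop, ∀ k : ℤ, |k| ≤ r → s (n (φ q) + k) = ξ k := by
  obtain ⟨ξ, -, φ, hφ, hlim⟩ := (isCompact_univ (X := ℤ → Lt)).tendsto_subseq
    (x := fun q k => s (n q + k)) (fun _ => mem_univ _)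
  have key : ∀ r : ℕ, ∀ᶠ q in atTop, ∀ k : ℤ, |k| ≤ r → s (n (φ q) + k) = ξ k := fun r =>
    hlim.eventually ((Cl_window_open ξ r).mem_nhds fun k _ => rfl)
  refine ⟨ξ, fun r N => ?_, φ, hφ, key⟩
  obtain ⟨q, h1, h2⟩ := ((key r).and ((hn.comp hφ.tendsto_atTop).eventually_ge_atTop N)).exists
  exact ⟨n (φ q), h2, h1⟩

/-- limit words of an admissible word are admissible (`adm_local`, window `|n| + 1`) -/
theorem LL_adm {s ξ : ℤ → Lt} (hs : Adm (symOf s)) (hξ : ξ ∈ LL s) : Adm (symOf ξ) := by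
  refine adm_local hs fun n => ?_
  obtain ⟨m, -, hw⟩ := hξ (n.natAbs + 1) 0
  have e0 : ((n.natAbs + 1 : ℕ) : ℤ) = |n| + 1 := by
    rw [Nat.cast_add, Int.natCast_natAbs, Nat.cast_one]
  rw [e0] at hw
  refine ⟨m, hw n (by linarith), hw (n + 1) ?_⟩
  have := abs_add_le n 1
  rwa [abs_one] at this

end Pool.Agent.WildW
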