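import Pool.Agent.Lib.MP_3dbc4a_an_WL.It

/-!
# MP_3dbc4a_an, project W, block L: the folds of the itinerary
-/

set_option autoImplicit false

open Filter Set
open scoped Topology

namespace Pool.Agent.WildW

section

variable {F : Fam} {a : Fin 8 → ℝ} {E : ℕ → List KA} {B : ℕ → List KB} {u : ℕ → List Pl}

/-- the folds of the finite itineraries. Proof: induction over `J`, unfold `itin` (`split_ifs`): the
only letter `.d` of the definition is `.d ⟨J % 8, _⟩` at `TT J`, which is `fo J`. -/
theorem itin_fold_inv {J : ℕ} {n : ℤ} {i : Fin 8} (hn : itin E B u J n = .d i) :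
    ∃ j, n = TT j ∧ i = fo j := by
  induction J with
  | zero =>
    simp only [itin] at hn
    exact absurd hn (by simp)
  | succ J ih =>
    simp only [itin] at hn
    split_ifs at hn with h1 h2 h3
    · exact ih hn
    · refine ⟨J, h3, ?_⟩
      rw [Lt.d.injEq] at hn
      rw [← hn]
      rfl

/-- **L2** folds of the itinerary are exactly at the times `TT j`. -/
theorem itinI_fold (hC : Chain F a E B u) {n : ℤ} {i : Fin 8} (hn : itinI E B u n = .d i) :
    ∃ j, n = TT j ∧ i = fo j := by
  have _ := hC
  exact itin_fold_inv (J := n.toNat + 2) hn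

/-- between two folds all letters are plain: `itinI_fold`, `TT_strict` -/
theorem itinI_plain (hC : Chain F a E B u) (j : ℕ) (n : ℤ) (h1 : TT j < n) (h2 : n < TT (j + 1)) :
    ∃ c, itinI E B u n = .p c := by
  rcases hc : itinI E B u n with c | i
  · exact ⟨c, rfl⟩
  · exfalso
    obtain ⟨k, hk, _⟩ := itinI_fold hC hc
    rw [hk] at h1 h2
    have h3 := TT_strict.lt_iff_lt.1 h1
    have h4 := TT_strict.lt_iff_lt.1 h2
    omega

end

end Pool.Agent.WildW
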