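import Pool.Agent.Lib.MP_3dbc4a_an_W.Good
import Pool.Agent.Lib.MP_3dbc4a_an_WL.Cl
import Pool.Agent.Lib.MP_3dbc4a_an_WL.Fo
import Pool.Agent.Lib.MP_3dbc4a_an_WS.Res

/-!
# MP_3dbc4a_an, project W, block L: limit words are good
-/

set_option autoImplicit false

open Filter Set
open scoped Topology

namespace Pool.Agent.WildW

section

variable {F : Fam} {a : Fin 8 → ℝ} {E : ℕ → List KA} {B : ℕ → List KB} {u : ℕ → List Pl}

/-- If a limit word has a fold at `t` then for every window `r` and every bound `M` it agrees on `[t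
- r, t + r]` with the itinerary around some fold `TT j` with `j ≥ M`. Proof: definition of `LL`
for the window `r + |t|` and times `n ≥ TT M + |t|` (`(TT M + |t|).toNat`): `s (n + t) = ξ t =
.d i`, so `n + t = TT j` by `itinI_fold`, and `TT j ≥ TT M` gives `j ≥ M`
(`TT_strict.le_iff_le`). -/
theorem LL_at_fold (hC : Chain F a E B u) {ξ : ℤ → Lt} (hξ : ξ ∈ LL (itinI E B u)) {t : ℤ}
    {i : Fin 8} (ht : ξ t = .d i) (r M : ℕ) :
    ∃ j, M ≤ j ∧ i = fo j ∧ ∀ k : ℤ, |k| ≤ r → itinI E B u (TT j + k) = ξ (t + k) := by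
  obtain ⟨n, hn, hw⟩ := hξ (r + t.natAbs) (TT M + |t|).toNat
  have hn' : TT M + |t| ≤ n := Int.toNat_le.1 hn
  have e0 : ((r + t.natAbs : ℕ) : ℤ) = r + |t| := by
    rw [Nat.cast_add, Int.natCast_natAbs]
  rw [e0] at hw
  have h1 := hw t (by
    have : (0 : ℤ) ≤ r := Int.natCast_nonneg _
    linarith)
  rw [ht] at h1
  obtain ⟨j, hj, hi⟩ := itinI_fold hC h1
  have h2 := neg_abs_le t
  have h3 : TT M ≤ TT j := by linarith
  refine ⟨j, TT_strict.le_iff_le.1 h3, hi, fun k hk => ?_⟩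
  have h4 := hw (t + k) (by
    have := abs_add_le t k
    linarith)
  rw [← h4, ← hj, add_assoc]

/-- The residual of a limit word at a fold is zero. Proof: for every `r` take `j ≥ r` from
`LL_at_fold`; `s' = shiftW s (TT j - t)` agrees with `ξ` on `[t - r, t + r]`, so `Phi_dep` (`a =
a'`) gives `|Φ s' t - Φ ξ t| ≤ 10 (2^-119)^r + 10 (2^-19)^r`, and `Φ s' t = Φ s (TT j)`
(`Phi_shift`) is at most `(1/2^dd j)^2` (`res`), `dd j ≥ j ≥ r` (`dd_lower`). All three terms
tend to `0` as `r → ∞`. -/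
theorem LL_Phi (hC : Chain F a E B u) {ξ : ℤ → Lt} (hξ : ξ ∈ LL (itinI E B u)) {t : ℤ}
    {i : Fin 8} (ht : ξ t = .d i) : Phi F a (symOf ξ) t = 0 := by
  have hAξ : Adm (symOf ξ) := LL_adm hC.adm hξ
  have key : ∀ r : ℕ, |Phi F a (symOf ξ) t| ≤ 21 * (1 / 2 : ℝ) ^ r := by
    intro r
    obtain ⟨j, hj, -, hw⟩ := LL_at_fold hC hξ ht r r
    have hA := hC.adm
    have h1 : shiftW (symOf (itinI E B u)) (TT j - t) t = .d (fo j) := by
      show symOf (itinI E B u) (t + (TT j - t)) = .d (fo j)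
      rw [show t + (TT j - t) = TT j by ring]
      exact symOf_d.2 (itinI_at hC j)
    have h2 := Phi_dep F hC.cube hC.cube (s := shiftW (symOf (itinI E B u)) (TT j - t))
      (s' := symOf ξ) (adm_shift hA (TT j - t)) hAξ h1 (u := r) (v := r) (fun m h3 h4 => by
        show (itinI E B u (m + (TT j - t))).sym = (ξ m).sym
        have h5 := hw (m - t) (abs_le.2 ⟨by linarith, by linarith⟩)
        rw [show m + (TT j - t) = TT j + (m - t) by ring, h5, show t + (m - t) = m by ring])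
    rw [sub_self, sub_zero, dist_self, mul_zero, add_zero,
      Phi_shift F hC.cube hA, show t + (TT j - t) = TT j by ring] at h2
    have h3 := hC.res j
    have h4 : r ≤ dd j := by
      have := dd_lower j
      omega
    have e1 : ((1 : ℝ) / 2 ^ 119) ^ r ≤ (1 / 2) ^ r :=
      pow_le_pow_left₀ (by positivity) (by norm_num) r
    have e2 : ((1 : ℝ) / 2 ^ 19) ^ r ≤ (1 / 2) ^ r :=
      pow_le_pow_left₀ (by positivity) (by norm_num) r
    have e3 : ((1 : ℝ) / 2 ^ dd j) ^ 2 ≤ (1 / 2) ^ r := by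
      rw [← one_div_pow]
      have h5 : ((1 : ℝ) / 2) ^ dd j ≤ (1 / 2) ^ r :=
        pow_le_pow_of_le_one (by norm_num) (by norm_num) h4
      have h6 : ((1 : ℝ) / 2) ^ dd j ≤ 1 := pow_le_one₀ (by norm_num) (by norm_num)
      have h7 : (0 : ℝ) ≤ (1 / 2) ^ dd j := by positivity
      nlinarith
    have e4 : |Phi F a (symOf ξ) t| ≤ |Phi F a (symOf (itinI E B u)) (TT j)| +
        |Phi F a (symOf (itinI E B u)) (TT j) - Phi F a (symOf ξ) t| := by
      have := abs_sub_abs_le_abs_sub (Phi F a (symOf ξ) t)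
        (Phi F a (symOf (itinI E B u)) (TT j))
      rw [abs_sub_comm] at this
      linarith
    linarith
  have hlim : Tendsto (fun r : ℕ => 21 * (1 / 2 : ℝ) ^ r) atTop (𝓝 (21 * 0)) :=
    (tendsto_pow_atTop_nhds_zero_of_lt_one (by norm_num) (by norm_num)).const_mul 21
  rw [mul_zero] at hlim
  exact abs_nonpos_iff.1 (ge_of_tendsto' hlim key)

/-- **L4** limit words are good. Proof. `Adm`: `LL_adm` and `Chain.adm`. If `ξ` is not plain it has
a fold at some `t` (cases on the letter). Left of `t`: for `n < t` put `k = t - n - 1`;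
`LL_at_fold` with `r ≥ t - n`, `M ≥ t - n`: `nn j ≥ 14 + j > k`, so `ξ n = itinI (TT j - k - 1)`
is a letter of `K_1` (`itinI_past`). Right of `t`: the same with `itinI_fut` (`k < nn j ≤ 6 nn
j`). Residual: `LL_Phi`. Letters `≠ bot`: given `N`, put `k = 13 + |N| + |t|` (as a natural
number), `LL_at_fold` with `r = 6 k + 6`, `M = k` (`k < nn j` by `nn_ge`); `nb` gives `y ∈ ((B
j).drop (6 k)).take 6`, `y ≠ bot`, that is `y = (B j)[6 k + q]`, `q < 6`
(`List.mem_iff_getElem`, `List.getElem_take`, `List.getElem_drop`), and `ξ (t + (6 k + q) + 1) =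
.p (.f y)` by `itinI_fut`; the index is `≥ N`. -/
theorem LL_good (hC : Chain F a E B u) {ξ : ℤ → Lt} (hξ : ξ ∈ LL (itinI E B u)) :
    GoodW F a ξ := by
  refine ⟨LL_adm hC.adm hξ, ?_⟩
  by_cases hp : ∀ n, ∃ c, ξ n = .p c
  · exact Or.inl hp
  right
  push Not at hp
  obtain ⟨t, ht⟩ := hp
  obtain ⟨i, hi⟩ : ∃ i, ξ t = .d i := by
    cases h : ξ t with
    | p c => exact absurd h (ht c)
    | d i => exact ⟨i, rfl⟩
  refine ⟨t, i, hi, fun n hn => ?_, fun n hn => ?_, LL_Phi hC hξ hi, fun M => ?_⟩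
  · obtain ⟨j, hj, -, hw⟩ := LL_at_fold hC hξ hi (t - n).toNat (t - n).toNat
    have h1 : ((t - n).toNat : ℤ) = t - n := Int.toNat_of_nonneg (by linarith)
    have h2 : ((t - n - 1).toNat : ℤ) = t - n - 1 := Int.toNat_of_nonneg (by linarith)
    have h3 := nn_ge j
    have h4 := hw (n - t) (by rw [h1]; exact abs_le.2 ⟨by linarith, by linarith⟩)
    have h5 := itinI_past hC (j := j) (k := (t - n - 1).toNat) (by omega)
    rw [h2, show TT j - (t - n - 1) - 1 = TT j + (n - t) by ring, h4,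
      show t + (n - t) = n by ring] at h5
    exact ⟨_, h5⟩
  · obtain ⟨j, hj, -, hw⟩ := LL_at_fold hC hξ hi (n - t).toNat (n - t).toNat
    have h1 : ((n - t).toNat : ℤ) = n - t := Int.toNat_of_nonneg (by linarith)
    have h2 : ((n - t - 1).toNat : ℤ) = n - t - 1 := Int.toNat_of_nonneg (by linarith)
    have h3 := nn_ge j
    have h4 := hw (n - t) (by rw [h1]; exact abs_le.2 ⟨by linarith, by linarith⟩)
    have h5 := itinI_fut hC (j := j) (k := (n - t - 1).toNat) (by omega)
    rw [h2, show TT j + (n - t - 1) + 1 = TT j + (n - t) by ring, h4,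
      show t + (n - t) = n by ring] at h5
    exact ⟨_, h5⟩
  · obtain ⟨k, hk⟩ : ∃ k, k = 13 + M.natAbs + t.natAbs := ⟨_, rfl⟩
    obtain ⟨j, hj, -, hw⟩ := LL_at_fold hC hξ hi (6 * k + 6) k
    have h3 := nn_ge j
    obtain ⟨y, hy, hyb⟩ := hC.nb j k (by omega) (by omega)
    obtain ⟨q, hq, hq'⟩ := List.mem_iff_getElem.1 hy
    have hq1 : q < 6 ∧ 6 * k + q < (B j).length := by
      rw [List.length_take, List.length_drop] at hq
      omega
    rw [List.getElem_take, List.getElem_drop] at hq'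
    have hlen := hC.lenB j
    have h5 := itinI_fut hC (j := j) (k := 6 * k + q) (by omega)
    have h4 := hw (((6 * k + q : ℕ) : ℤ) + 1) (by
      rw [abs_of_nonneg (by positivity)]
      have : 6 * k + q + 1 ≤ 6 * k + 6 := by omega
      exact_mod_cast this)
    rw [← add_assoc, h5, List.getD_eq_getElem _ _ hq1.2, hq'] at h4
    refine ⟨t + (((6 * k + q : ℕ) : ℤ) + 1), ?_, ?_⟩
    · omega
    · rw [← h4]
      intro h6
      simp only [Lt.p.injEq, Pl.f.injEq] at h6
      exact hyb h6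

end

end Pool.Agent.WildW
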