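import Pool.Agent.Lib.MP_3dbc4a_an_WL.Base
import Pool.Agent.Lib.MP_3dbc4a_an_WS.ItinAdm

/-!
# MP_3dbc4a_an, project W, block L: the letters of the itinerary
-/

set_option autoImplicit false

open Filter Set
open scoped Topology

namespace Pool.Agent.WildW

theorem TT_succ (j : ℕ) : TT (j + 1) = TT j + mm j + 1 := rfl

theorem TT_strict : StrictMono TT := by
  refine strictMono_nat_of_lt_succ fun j => ?_
  have h := TT_succ j
  omega

/-- Induction. -/
theorem TT_ge (j : ℕ) : (j : ℤ) ≤ TT j := by
  induction j with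
  | zero => exact le_rfl
  | succ j ih =>
    have h := TT_succ j
    push_cast
    omega

/-- From `fit`. -/
theorem TT_room (j : ℕ) : TT j + 6 * nn j + 3 + j + 1 ≤ TT (j + 1) - nn (j + 1) := by
  have h := TT_succ j
  have h1 := fit j
  omega

/-- From `nn_lt`. -/
theorem nn_strict : StrictMono nn := by
  exact strictMono_nat_of_lt_succ nn_lt

private theorem it_tail1 (B : List KB) (u : List Pl) {k : ℕ} (hk : k < B.length) :
    (tailL B u).getD k (.e estar) = .f (B.getD k mid) := by
  unfold tailL
  rw [List.append_assoc, List.append_assoc, List.getD_eq_getElem?_getD,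
    List.getD_eq_getElem?_getD, List.getElem?_append_left (by simpa using hk),
    List.getElem?_map, List.getElem?_eq_getElem hk]
  rfl

private theorem it_tail2 (B : List KB) (u : List Pl) {k : ℕ} (hk : k < u.length) :
    (tailL B u).getD (B.length + 2 + k) (.e estar) = u.getD k (.e estar) := by
  have h1 : (B.map Pl.f ++ [Pl.f mid, Pl.g]).length = B.length + 2 := by simp
  unfold tailL
  rw [List.getD_eq_getElem?_getD, List.getD_eq_getElem?_getD,
    List.getElem?_append_left (by rw [List.length_append, h1]; omega),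
    List.getElem?_append_right (by rw [h1]; omega), h1, Nat.add_sub_cancel_left]

section

variable {F : Fam} {a : Fin 8 → ℝ} {E : ℕ → List KA} {B : ℕ → List KB} {u : ℕ → List Pl}

/-- `itinI_adm`. -/
theorem Chain.adm (hC : Chain F a E B u) : Adm (symOf (itinI E B u)) := by
  exact itinI_adm E B u hC.u1 hC.u2 hC.lenB

/-- the folds: `itinI_eq` with `J = j + 1` (`TT_room`), `itin_fold`. -/
theorem itinI_at (hC : Chain F a E B u) (j : ℕ) : itinI E B u (TT j) = .d (fo j) := by
  rw [itinI_eq E B u (J := j + 1) (by have h := TT_room j; omega)]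
  exact itin_fold E B u hC.u1 (Nat.lt_succ_self j)

/-- the past word: `itinI_eq` with `J = j + 1`, `itin_past`. -/
theorem itinI_past (hC : Chain F a E B u) {j k : ℕ} (hk : k < nn j) :
    itinI E B u (TT j - k - 1) = .p (.e (extE (E j) k)) := by
  rw [itinI_eq E B u (J := j + 1) (by have h := TT_room j; omega)]
  exact itin_past E B u hC.u1 (Nat.lt_succ_self j) hk

/-- the tail: `itinI_eq` with `J = j + 1`, `itin_tail`. -/
theorem itinI_tail (hC : Chain F a E B u) {j k : ℕ} (hk : k + 1 + nn (j + 1) ≤ mm j) :
    itinI E B u (TT j + k + 1) = .p ((tailL (B j) (u j)).getD k (.e estar)) := by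
  rw [itinI_eq E B u (J := j + 1) (by have h := TT_succ j; omega)]
  exact itin_tail E B u hC.u1 (Nat.lt_succ_self j) (Or.inl (by exact_mod_cast hk))

/-- the future word: `itinI_tail`, `fit`, `lenB`. -/
theorem itinI_fut (hC : Chain F a E B u) {j k : ℕ} (hk : k < 6 * nn j) :
    itinI E B u (TT j + k + 1) = .p (.f ((B j).getD k mid)) := by
  rw [itinI_tail hC (by have h := fit j; omega), it_tail1 _ _ (by rw [hC.lenB]; exact hk)]

/-- the word `u j`: `itinI_tail`, `fit`, `lenB`, `u1`. -/
theorem itinI_u (hC : Chain F a E B u) {j k : ℕ} (hk : k < (u j).length) :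
    itinI E B u (TT j + (6 * nn j + 2 + k : ℕ) + 1) = .p ((u j).getD k (.e estar)) := by
  have hl := hC.u1 j
  have hf := fit j
  rw [itinI_tail hC (by omega), ← hC.lenB j, it_tail2 _ _ hk]

end

end Pool.Agent.WildW
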