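import Pool.Agent.Lib.MP_3dbc4a_an_WL.Cl
import Pool.Agent.Lib.MP_3dbc4a_an_WL.It

/-!
# MP_3dbc4a_an, project W, block L: plain words and a word with a fold
-/

set_option autoImplicit false

open Filter Set
open scoped Topology

namespace Pool.Agent.WildW

private theorem pm_word {ξ : ℤ → Lt} (hA : Adm (symOf ξ)) {c : ℤ → Pl}
    (hc : ∀ n, ξ n = .p (c n)) (r : ℕ) :
    AdmL (List.ofFn fun i : Fin (2 * r + 1) => c ((i : ℕ) - (r : ℤ))) := by
  intro n c1 c2 j h1 h2 h3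
  rw [List.getElem?_ofFn] at h1 h2
  split_ifs at h1 h2 with h4 h5
  simp only [Option.some.injEq] at h1 h2
  subst h3
  have h6 := (adm_iff.1 hA) ((n : ℤ) - r) j (by rw [hc, h1])
  rw [hc] at h6
  have h7 : c ((n : ℤ) - r + 1) = c2 := by
    rw [← h2]
    congr 1
    push_cast
    ring
  rw [h7] at h6
  rcases h6 with ⟨j', h6⟩ | h6
  · exact Or.inl ⟨j', Lt.p.inj h6⟩
  · exact Or.inr (Lt.p.inj h6)

section

variable {F : Fam} {a : Fin 8 → ℝ} {E : ℕ → List KA} {B : ℕ → List KB} {u : ℕ → List Pl}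

/-- **L5** all plain admissible words are limit words. Proof. Choose `c : ℤ → Pl` with `ξ n = .p (c
n)`. Given `r`, `N`: let `w = List.ofFn (n := 2 r + 1) fun i => c (i - r)`. It is admissible
(`AdmL`) by `adm_iff`. `u3` gives `j ≥ N` with `u j = w`. Time `n = TT j + 6 nn j + 2 + r + 1`
(`.toNat`; `≥ j ≥ N` by `TT_ge`). For `|k| ≤ r`, `k' = (k + r).toNat < 2 r + 1`: `itinI_u`: the
letter at `n + k = TT j + (6 nn j + 2 + k') + 1` is `.p (w.getD k' _) = .p (c k)`. -/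
theorem plain_mem (hC : Chain F a E B u) {ξ : ℤ → Lt} (hA : Adm (symOf ξ))
    (hp : ∀ n, ∃ c, ξ n = .p c) : ξ ∈ LL (itinI E B u) := by
  choose c hc using hp
  intro r N
  obtain ⟨j, hj, hu⟩ := hC.u3 _ (pm_word hA hc r) N
  have h1 := TT_ge j
  have h2 : (0 : ℤ) ≤ nn j := Int.natCast_nonneg _
  have h3 : (N : ℤ) ≤ j := by exact_mod_cast hj
  have h4 : (0 : ℤ) ≤ TT j + 6 * nn j + 2 + r + 1 := by
    have h5 : (0 : ℤ) ≤ r := Int.natCast_nonneg _
    have h6 : (0 : ℤ) ≤ j := Int.natCast_nonneg _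
    linarith
  refine ⟨(TT j + 6 * nn j + 2 + r + 1).toNat, ?_, fun k hk => ?_⟩
  · rw [← Nat.cast_le (α := ℤ), Int.toNat_of_nonneg h4]
    have h5 : (0 : ℤ) ≤ r := Int.natCast_nonneg _
    linarith
  · rw [abs_le] at hk
    have h5 : (0 : ℤ) ≤ k + r := by linarith [hk.1]
    have h6 : (((k + r).toNat : ℕ) : ℤ) = k + r := Int.toNat_of_nonneg h5
    have h7 : (k + r).toNat < 2 * r + 1 := by omega
    have h8 : (k + r).toNat < (u j).length := by
      rw [hu, List.length_ofFn]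
      exact h7
    have h9 : TT j + 6 * nn j + 2 + r + 1 + k =
        TT j + (6 * nn j + 2 + (k + r).toNat : ℕ) + 1 := by
      push_cast
      rw [h6]
      ring
    rw [Int.toNat_of_nonneg h4, h9, itinI_u hC h8, hc k, List.getD_eq_getElem _ _ h8]
    congr 1
    simp only [hu, List.getElem_ofFn]
    congr 1
    rw [h6]
    ring

/-- **L6** there is a limit word with a fold at `0`. Proof: `LL_cluster` for the times
`q ↦ (TT q).toNat` (they tend to infinity by `TT_ge`), window `r = 0`, `itinI_at`. -/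
theorem fold_mem (hC : Chain F a E B u) : ∃ ξ ∈ LL (itinI E B u), ∃ i, ξ 0 = .d i := by
  have h0 : ∀ q : ℕ, (((TT q).toNat : ℕ) : ℤ) = TT q := fun q =>
    Int.toNat_of_nonneg ((Int.natCast_nonneg q).trans (TT_ge q))
  have ht : Tendsto (fun q : ℕ => (TT q).toNat) atTop atTop := by
    refine tendsto_atTop_mono (fun q => ?_) tendsto_id
    rw [id, ← Nat.cast_le (α := ℤ), h0 q]
    exact TT_ge q
  obtain ⟨ξ, hξ, φ, -, h⟩ := LL_cluster (itinI E B u) ht
  obtain ⟨q, hq⟩ := (h 0).exists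
  refine ⟨ξ, hξ, fo (φ q), ?_⟩
  rw [← hq 0 (by simp), add_zero, h0, itinI_at hC]

end

end Pool.Agent.WildW
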