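import Pool.Agent.Lib.MP_3dbc4a_an_WL.Ch
import Pool.Agent.Lib.MP_3dbc4a_an_WL.Go
import Pool.Agent.Lib.MP_3dbc4a_an_WL.Pm

/-!
# MP_3dbc4a_an, project W, block L: no isolated limit words
-/

set_option autoImplicit false

open Filter Set
open scoped Topology

namespace Pool.Agent.WildW

section

variable {F : Fam} {a : Fin 8 → ℝ} {E : ℕ → List KA} {B : ℕ → List KB} {u : ℕ → List Pl}

/-- plain limit words: `ξ_v` = `ξ` on `n ≥ -r`, the letter `.p (.e v)` for `n < -r`, for the two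
letters `v = (true, 0)` and `v = (false, 0)` of `K_1`: both are in `LL` by `plain_mem`
(`adm_iff`: the letter after `e v` is arbitrary), agree with `ξ` on the window and differ from
each other at `-r - 1`, so one of them is different from `ξ`. -/
theorem not_isolated_plain (hC : Chain F a E B u) {ξ : ℤ → Lt} (hA : Adm (symOf ξ))
    (hp : ∀ n, ∃ c, ξ n = .p c) (r : ℕ) :
    ∃ ξ' ∈ LL (itinI E B u), ξ' ≠ ξ ∧ ∀ k : ℤ, |k| ≤ r → ξ' k = ξ k := by
  obtain ⟨W, hW⟩ : ∃ W : KA → ℤ → Lt, W = fun v n => if -(r : ℤ) ≤ n then ξ n else .p (.e v) :=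
    ⟨_, rfl⟩
  have hin : ∀ v n, -(r : ℤ) ≤ n → W v n = ξ n := by
    intro v n hn
    rw [hW]
    exact if_pos hn
  have hout : ∀ v n, ¬ -(r : ℤ) ≤ n → W v n = .p (.e v) := by
    intro v n hn
    rw [hW]
    exact if_neg hn
  have hmem : ∀ v, W v ∈ LL (itinI E B u) := by
    intro v
    refine plain_mem hC (adm_iff.2 fun n j hn => ?_) fun n => ?_
    · by_cases h1 : -(r : ℤ) ≤ n
      · rw [hin v n h1] at hn
        rw [hin v (n + 1) (by linarith)]
        exact adm_iff.1 hA n j hn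
      · rw [hout v n h1] at hn
        simp at hn
    · by_cases h1 : -(r : ℤ) ≤ n
      · rw [hin v n h1]
        exact hp n
      · exact ⟨_, hout v n h1⟩
  have hag : ∀ v, ∀ k : ℤ, |k| ≤ r → W v k = ξ k := fun v k hk => hin v k (abs_le.1 hk).1
  by_cases h0 : W (true, 0) = ξ
  · refine ⟨W (false, 0), hmem _, fun h1 => ?_, hag _⟩
    have h2 : W (true, 0) (-(r : ℤ) - 1) = W (false, 0) (-(r : ℤ) - 1) := by rw [h0, h1]
    rw [hout _ _ (by linarith), hout _ _ (by linarith)] at h2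
    simp at h2
  · exact ⟨W (true, 0), hmem _, h0, hag _⟩

/-- limit words with a fold: `LL_at_fold` with the window `r + |t|` and `M = r + |t|` gives `j` with
`nn j ≥ 14 + j > r + |t|`; the two words of `LL_child` for `j` (sides `false`, `true`), shifted
back by `t` (`LL_shift`, `shiftW ξ (-t)`), agree with `ξ` on `[-r, r]` and differ from each
other at `t - nn j - 1`. -/
theorem not_isolated_fold (hC : Chain F a E B u) {ξ : ℤ → Lt} (hξ : ξ ∈ LL (itinI E B u)) {t : ℤ}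
    {i : Fin 8} (ht : ξ t = .d i) (r : ℕ) :
    ∃ ξ' ∈ LL (itinI E B u), ξ' ≠ ξ ∧ ∀ k : ℤ, |k| ≤ r → ξ' k = ξ k := by
  obtain ⟨j, hj, -, hw⟩ := LL_at_fold hC hξ ht (r + t.natAbs) (r + t.natAbs)
  have hn := nn_ge j
  have e0 : ((r + t.natAbs : ℕ) : ℤ) = r + |t| := by
    rw [Nat.cast_add, Int.natCast_natAbs]
  rw [e0] at hw
  have hj' : (r : ℤ) + |t| < nn j := by
    rw [← e0]
    have : r + t.natAbs < nn j := by omega
    exact_mod_cast this
  have key : ∀ x : Bool, ∃ ξ' ∈ LL (itinI E B u), (∀ k : ℤ, |k| ≤ r → ξ' k = ξ k) ∧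
      ∃ v : KA, ξ' (t - nn j - 1) = .p (.e v) ∧ side v = x := by
    intro x
    obtain ⟨η, h1, h2, v, h3, h4⟩ := LL_child hC j x
    refine ⟨shiftW η (-t), LL_shift h1 (-t), fun k hk => ?_, v, ?_, h4⟩
    · have h5 : |k - t| ≤ r + |t| := by
        have := abs_sub k t
        linarith
      have h6 := abs_le.1 h5
      have h7 : (0 : ℤ) ≤ nn j := Int.natCast_nonneg _
      change η (k + -t) = ξ k
      rw [← sub_eq_add_neg, h2 (k - t) (by linarith [h6.1]) (by linarith [h6.2]), hw _ h5]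
      congr 1
      ring
    · change η (t - nn j - 1 + -t) = .p (.e v)
      rw [← h3]
      congr 1
      ring
  obtain ⟨ξ₁, a1, b1, v₁, c1, d1⟩ := key true
  obtain ⟨ξ₂, a2, b2, v₂, c2, d2⟩ := key false
  by_cases h0 : ξ₁ = ξ
  · refine ⟨ξ₂, a2, fun h1 => ?_, b2⟩
    rw [h0] at c1
    rw [h1, c1] at c2
    simp only [Lt.p.injEq, Pl.e.injEq] at c2
    rw [c2, d2] at d1
    exact absurd d1 (by decide)
  · exact ⟨ξ₁, a1, h0, b1⟩

/-- **L7** no isolated limit words: the two cases (`LL_adm`, `Chain.adm`). -/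
theorem LL_not_isolated (hC : Chain F a E B u) {ξ : ℤ → Lt} (hξ : ξ ∈ LL (itinI E B u)) (r : ℕ) :
    ∃ ξ' ∈ LL (itinI E B u), ξ' ≠ ξ ∧ ∀ k : ℤ, |k| ≤ r → ξ' k = ξ k := by
  by_cases hp : ∀ n, ∃ c, ξ n = .p c
  · exact not_isolated_plain hC (LL_adm hC.adm hξ) hp r
  · push Not at hp
    obtain ⟨t, ht⟩ := hp
    cases h : ξ t with
    | p c => exact absurd h (ht c)
    | d i => exact not_isolated_fold hC hξ h r

end

end Pool.Agent.WildW
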