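import Pool.Agent.Lib.MP_3dbc4a_an_WL.Co
import Pool.Agent.Lib.MP_3dbc4a_an_WL.Is

/-!
# MP_3dbc4a_an, project W, block L: the limit set is a Cantor set
-/

set_option autoImplicit false

open Filter Set
open scoped Topology

namespace Pool.Agent.WildW

section

variable {F : Fam} {a : Fin 8 → ℝ} {E : ℕ → List KA} {B : ℕ → List KB} {u : ℕ → List Pl}

/-- `LL s` is compact (closed in a compact space) -/
theorem LL_compact (s : ℤ → Lt) : IsCompact (LL s) :=
  (LL_closed s).isCompact

/-- `pt` is continuous on `LL` (`pt_cont`, `LL_good`) -/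
theorem pt_contOn (hC : Chain F a E B u) : ContinuousOn (pt F a) (LL (itinI E B u)) :=
  (pt_cont F hC.cube).mono fun _ hξ => (LL_good hC hξ).1

/-- `pt` is injective on `LL` (`pt_inj`, `LL_good`) -/
theorem pt_injOn (hC : Chain F a E B u) : InjOn (pt F a) (LL (itinI E B u)) :=
  fun _ h1 _ h2 h => pt_inj F hC.cube (LL_good hC h1) (LL_good hC h2) h

/-- the limit set is perfect. Proof: closed since compact. For `ξ ∈ LL` choose for every `r` the
word `ξ_r ∈ LL` of `LL_not_isolated` for the window `r + 1`: `pt ξ_r ≠ pt ξ` (`pt_injOn`) and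
`dist (pt ξ_r) (pt ξ) ≤ 8 (2^-19)^r` (`pt_dist`), so `pt ξ` is an accumulation point
(`accPt_iff_nhds` or `mem_closure_iff`, `Metric`). -/
theorem lambda_perfect (hC : Chain F a E B u) : Perfect (pt F a '' LL (itinI E B u)) := by
  refine ⟨((LL_compact _).image_of_continuousOn (pt_contOn hC)).isClosed, ?_⟩
  rintro _ ⟨ξ, hξ, rfl⟩
  rw [accPt_iff_nhds]
  intro U hU
  obtain ⟨ε, hε, hball⟩ := Metric.mem_nhds_iff.1 hU
  obtain ⟨r, hr⟩ := exists_pow_lt_of_lt_one (show (0 : ℝ) < ε / 8 by positivity)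
    (show ((1 : ℝ) / 2 ^ 19) < 1 by norm_num)
  obtain ⟨η, h1, h2, h3⟩ := LL_not_isolated hC hξ (r + 1)
  refine ⟨pt F a η, ⟨hball ?_, η, h1, rfl⟩, fun h => h2 (pt_injOn hC h1 hξ h)⟩
  refine lt_of_le_of_lt (pt_dist F hC.cube (LL_good hC h1).1 (LL_good hC hξ).1 (r := r)
    fun k hk => h3 k ?_) (by linarith)
  push_cast
  exact hk

/-- the limit set is totally disconnected. Proof: the restriction of `pt` to the compact space
`LL s` (subtype) is continuous and injective, so a closed embedding
(`Continuous.isClosedEmbedding`), and `LL s` is totally disconnected as a subspace of a product of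
discrete spaces; `Topology.IsEmbedding.isTotallyDisconnected_range`, `image_eq_range`. -/
theorem lambda_td (hC : Chain F a E B u) :
    IsTotallyDisconnected (pt F a '' LL (itinI E B u)) := by
  have := isCompact_iff_compactSpace.1 (LL_compact (itinI E B u))
  have h1 : Continuous ((LL (itinI E B u)).domRestrict (pt F a)) :=
    continuousOn_iff_continuous_domRestrict.1 (pt_contOn hC)
  have h2 : Function.Injective ((LL (itinI E B u)).domRestrict (pt F a)) :=
    injOn_iff_injective.1 (pt_injOn hC)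
  rw [← range_domRestrict]
  exact (h1.isClosedEmbedding h2).isEmbedding.isTotallyDisconnected_range.2 inferInstance

/-- invariance: `map_pt`, `LL_good`, `LL_shift` for `1` and `-1`
(`shiftW (shiftW ξ (-1)) 1 = ξ`). -/
theorem lambda_inv (hC : Chain F a E B u) :
    F.map a '' (pt F a '' LL (itinI E B u)) = pt F a '' LL (itinI E B u) := by
  ext z
  constructor
  · rintro ⟨_, ⟨ξ, hξ, rfl⟩, rfl⟩
    exact ⟨shiftW ξ 1, LL_shift hξ 1, (map_pt F hC.cube (LL_good hC hξ)).symm⟩
  · rintro ⟨ξ, hξ, rfl⟩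
    have h1 := LL_shift hξ (-1)
    refine ⟨pt F a (shiftW ξ (-1)), ⟨_, h1, rfl⟩, ?_⟩
    rw [map_pt F hC.cube (LL_good hC h1)]
    congr 1
    funext n
    show ξ (n + 1 + -1) = ξ n
    rw [add_neg_cancel_right]

/-- **L9** the limit set is a Cantor set, `f(Λ) = Λ`. -/
theorem lambda_cantor (hC : Chain F a E B u) :
    (pt F a '' LL (itinI E B u)).Nonempty ∧ IsCompact (pt F a '' LL (itinI E B u)) ∧
      Perfect (pt F a '' LL (itinI E B u)) ∧ IsTotallyDisconnected (pt F a '' LL (itinI E B u)) ∧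
      F.map a '' (pt F a '' LL (itinI E B u)) = pt F a '' LL (itinI E B u) := by
  obtain ⟨ξ, hξ, -⟩ := fold_mem hC
  exact ⟨⟨_, ξ, hξ, rfl⟩, (LL_compact _).image_of_continuousOn (pt_contOn hC), lambda_perfect hC,
    lambda_td hC, lambda_inv hC⟩

end

end Pool.Agent.WildW
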