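import Pool.Agent.Lib.MP_3dbc4a_an_WL.It

/-!
# MP_3dbc4a_an, project W, block L: the number of letters `g` between two folds
-/

set_option autoImplicit false

open Filter Set
open scoped Topology

namespace Pool.Agent.WildW

section

variable {F : Fam} {a : Fin 8 → ℝ} {E : ℕ → List KA} {B : ℕ → List KB} {u : ℕ → List Pl}

private theorem gc_len (B : List KB) (u : List Pl) :
    (tailL B u).length = B.length + u.length + 3 := by
  unfold tailL
  simp only [List.length_append, List.length_map, List.length_cons, List.length_nil]
  omega

/-- number of indices with the letter `g` in the tail word: none in `B.map f`, one in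
`[f mid, g]`, at most `u.length` in `u`, one at the end -/
theorem count_tailL (B : List KB) (u : List Pl) :
    ((Finset.range (tailL B u).length).filter
      (fun k => (tailL B u).getD k (.e estar) = .g)).card ≤ u.length + 2 := by
  have h1 : (Finset.range (tailL B u).length).filter
      (fun k => (tailL B u).getD k (.e estar) = .g) ⊆
      Finset.Ico (B.length + 1) (B.length + u.length + 3) := by
    intro k hk
    rw [Finset.mem_filter, Finset.mem_range, gc_len] at hk
    obtain ⟨hk1, hk2⟩ := hk
    rw [Finset.mem_Ico]
    refine ⟨?_, hk1⟩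
    by_contra hlt
    have h2 : k < B.length + 1 := by omega
    unfold tailL at hk2
    rw [List.append_assoc, List.append_assoc] at hk2
    rcases Nat.lt_or_ge k B.length with h3 | h3
    · rw [List.getD_append _ _ _ _ (by rw [List.length_map]; exact h3),
        List.getD_eq_getElem _ _ (by rw [List.length_map]; exact h3), List.getElem_map] at hk2
      exact Pl.noConfusion hk2
    · have h4 : k = B.length := by omega
      rw [List.getD_append_right _ _ _ _ (by rw [List.length_map]; exact h3), List.length_map,
        h4, Nat.sub_self] at hk2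
      exact Pl.noConfusion hk2
  refine (Finset.card_le_card h1).trans (le_of_eq ?_)
  rw [Nat.card_Ico]
  omega

/-- **L3** between the folds: at most `j + 2` letters `g`. Proof: let `n` with `TT j < n < TT (j +
1)` and the letter `g`, `k = (n - TT j - 1).toNat`. If `k + 1 + nn (j + 1) ≤ mm j` then
`itinI_tail`: the letter is `(tailL (B j) (u j)).getD k (.e estar)`, so `k < (tailL ..).length`
(otherwise the letter is `.e estar`). If not, then `n ≥ TT (j + 1) - nn (j + 1)` and the letter
is a letter of `K_1` (`itinI_past` for `j + 1`). So `n ↦ (n - TT j - 1).toNat` maps the set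
injectively into the set of `count_tailL` (`Finset.card_le_card_of_injOn`), and `(u j).length ≤
j`. -/
theorem gcount (hC : Chain F a E B u) (j : ℕ) :
    ((Finset.Ioo (TT j) (TT (j + 1))).filter (fun n => itinI E B u n = .p .g)).card ≤ j + 2 := by
  refine le_trans ?_ ((count_tailL (B j) (u j)).trans (Nat.add_le_add_right (hC.u1 j) 2))
  refine Finset.card_le_card_of_injOn (fun n => (n - TT j - 1).toNat) ?_ ?_
  · intro n hn
    rw [Finset.mem_coe, Finset.mem_filter, Finset.mem_Ioo] at hn
    obtain ⟨⟨hn1, hn2⟩, hn3⟩ := hn
    rw [Finset.mem_coe, Finset.mem_filter, Finset.mem_range]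
    have hT : TT (j + 1) = TT j + mm j + 1 := rfl
    obtain ⟨k, hk⟩ : ∃ k : ℕ, n = TT j + k + 1 := ⟨(n - TT j - 1).toNat, by omega⟩
    have hk' : (n - TT j - 1).toNat = k := by omega
    simp only [hk']
    have h1 : k + 1 + nn (j + 1) ≤ mm j := by
      by_contra h2
      obtain ⟨k', hk2⟩ : ∃ k' : ℕ, n = TT (j + 1) - k' - 1 :=
        ⟨(TT (j + 1) - 1 - n).toNat, by omega⟩
      have h3 : k' < nn (j + 1) := by omega
      have h4 := itinI_past hC h3
      rw [← hk2, hn3] at h4
      injection h4 with h5
      exact Pl.noConfusion h5
    have h6 := itinI_tail hC h1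
    rw [← hk, hn3] at h6
    injection h6 with h7
    refine ⟨?_, h7.symm⟩
    by_contra h8
    rw [List.getD_eq_default _ _ (by omega)] at h7
    exact Pl.noConfusion h7
  · intro n hn n' hn' he
    rw [Finset.mem_coe, Finset.mem_filter, Finset.mem_Ioo] at hn hn'
    have h1 : (n - TT j - 1).toNat = (n' - TT j - 1).toNat := he
    omega

end

end Pool.Agent.WildW
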