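import Pool.Agent.Lib.MP_3dbc4a_an_WS.Defs

/-!
# MP_3dbc4a_an, project W, block L: definitions

`Chain`: the data produced by the block S. `LL s`: the `ω`-limit words of `s`.
-/

set_option autoImplicit false

open Filter Set
open scoped Topology

namespace Pool.Agent.WildW

instance : TopologicalSpace Lt := ⊥

instance : DiscreteTopology Lt := ⟨rfl⟩

private def WL_toLt : (KA ⊕ KB ⊕ Unit) ⊕ Fin 8 → Lt
  | .inl (.inl c) => .p (.e c)
  | .inl (.inr (.inl j)) => .p (.f j)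
  | .inl (.inr (.inr _)) => .p .g
  | .inr i => .d i

private theorem WL_toLt_surj : Function.Surjective WL_toLt := by
  rintro ((c | j | _) | i)
  · exact ⟨.inl (.inl c), rfl⟩
  · exact ⟨.inl (.inr (.inl j)), rfl⟩
  · exact ⟨.inl (.inr (.inr ())), rfl⟩
  · exact ⟨.inr i, rfl⟩

/-- finitely many letters -/
instance : Finite Lt := Finite.of_surjective WL_toLt WL_toLt_surj

/-- the data produced by the block S -/
structure Chain (F : Fam) (a : Fin 8 → ℝ) (E : ℕ → List KA) (B : ℕ → List KB)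
    (u : ℕ → List Pl) : Prop where
  cube : Cube a
  lenE : ∀ j, (E j).length = nn j
  lenB : ∀ j, (B j).length = 6 * nn j
  res : ∀ j, |Phi F a (symOf (itinI E B u)) (TT j)| ≤ (1 / 2 ^ dd j) ^ 2
  trE : ∀ j, 8 ≤ j → E (par j) <+: E j
  trB : ∀ j, 8 ≤ j → B (par j) <+: B j
  trS : ∀ j, 8 ≤ j → side (extE (E j) (nn (par j))) = sd j
  nb : ∀ j k, 13 ≤ k → k < nn j → ∃ y ∈ ((B j).drop (6 * k)).take 6, y ≠ bot
  u1 : ∀ j, (u j).length ≤ j
  u2 : ∀ j, AdmL (u j)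
  u3 : ∀ w, AdmL w → ∀ N, ∃ j, N ≤ j ∧ u j = w

/-- the `ω`-limit words of `s` -/
def LL (s : ℤ → Lt) : Set (ℤ → Lt) :=
  {ξ | ∀ r N : ℕ, ∃ n : ℕ, N ≤ n ∧ ∀ k : ℤ, |k| ≤ r → s (n + k) = ξ k}

end Pool.Agent.WildW
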