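import Pool.Agent.Lib.MP_3dbc4a_an_W.Good
import Pool.Agent.Lib.MP_3dbc4a_an_WL.Base

/-!
# MP_3dbc4a_an, project W, block L: continuity of the point of a word
-/

set_option autoImplicit false

open Filter Set
open scoped Topology

namespace Pool.Agent.WildW

/-- words with a common window have close points. Proof: `dep` at `n = 0` and at `n = -1` with `u =
v = r` (the window `[-r - 1, r + 1]`), `dist a a = 0`; `(2^-119)^(r+1) ≤ (2^-19)^(r+1)`; the
distance in `ℝ × ℝ` is the maximum (`Prod.dist_eq`, `Real.dist_eq`), and `|x n - x' n| ≤ Ed ..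
n`. -/
theorem pt_dist (F : Fam) {a : Fin 8 → ℝ} (ha : Cube a) {ξ ξ' : ℤ → Lt} (hξ : Adm (symOf ξ))
    (hξ' : Adm (symOf ξ')) {r : ℕ} (h : ∀ k : ℤ, |k| ≤ r + 1 → ξ k = ξ' k) :
    dist (pt F a ξ) (pt F a ξ') ≤ 8 * (1 / 2 ^ 19) ^ r := by
  have key : ∀ n : ℤ, |n| ≤ 1 →
      |xs F a (symOf ξ) n - xs F a (symOf ξ') n| ≤ 8 * (1 / 2 ^ 19) ^ r := by
    intro n hn
    have h1 := dep F ha ha hξ hξ' (n := n) (u := r) (v := r) (fun m h2 h3 => by
      show (ξ m).sym = (ξ' m).sym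
      rw [h m (by
        have h4 := abs_le.1 hn
        exact abs_le.2 ⟨by linarith, by linarith⟩)])
    rw [dist_self, mul_zero, add_zero] at h1
    have h2 : |xs F a (symOf ξ) n - xs F a (symOf ξ') n| ≤
        Ed (xs F a (symOf ξ)) (rs F a (symOf ξ)) (ts F a (symOf ξ)) (xs F a (symOf ξ'))
          (rs F a (symOf ξ')) (ts F a (symOf ξ')) n := le_max_left _ _
    have e1 : ((1 : ℝ) / 2 ^ 119) ^ (r + 1) ≤ (1 / 2 ^ 19) ^ (r + 1) :=
      pow_le_pow_left₀ (by positivity) (by norm_num) _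
    have e2 : ((1 : ℝ) / 2 ^ 19) ^ (r + 1) ≤ (1 / 2 ^ 19) ^ r :=
      pow_le_pow_of_le_one (by positivity) (by norm_num) (Nat.le_succ r)
    linarith
  rw [Prod.dist_eq, Real.dist_eq, Real.dist_eq]
  exact max_le (key 0 (by norm_num)) (key (-1) (by norm_num))

private theorem Co_window_open (ξ : ℤ → Lt) (r : ℕ) :
    IsOpen {η : ℤ → Lt | ∀ k : ℤ, |k| ≤ r → η k = ξ k} := by
  have h1 : {η : ℤ → Lt | ∀ k : ℤ, |k| ≤ r → η k = ξ k} =
      ⋂ k ∈ Set.Icc (-(r : ℤ)) r, (fun η : ℤ → Lt => η k) ⁻¹' {ξ k} := by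
    ext η
    simp only [mem_ofPred_eq, mem_iInter, mem_preimage, mem_singleton_iff, mem_Icc, abs_le]
  rw [h1]
  exact (Set.finite_Icc _ _).isOpen_biInter fun k _ =>
    (isOpen_discrete _).preimage (continuous_apply k)

/-- **L8** continuity of `pt` on admissible words. Proof: `Metric.continuousOn_iff'` or
`Metric.tendsto_nhds`; for `ε` choose `r` with `8 * (1 / 2 ^ 19) ^ r < ε`
(`exists_pow_lt_of_lt_one`); the words which agree with `ξ` on `[-r - 1, r + 1]` form a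
neighbourhood of `ξ` (finite intersection of preimages of points of a discrete space). -/
theorem pt_cont (F : Fam) {a : Fin 8 → ℝ} (ha : Cube a) :
    ContinuousOn (pt F a) {ξ | Adm (symOf ξ)} := by
  intro ξ hξ
  refine Metric.tendsto_nhds.2 fun ε hε => ?_
  obtain ⟨r, hr⟩ := exists_pow_lt_of_lt_one (show (0 : ℝ) < ε / 8 by positivity)
    (show ((1 : ℝ) / 2 ^ 19) < 1 by norm_num)
  have h1 : {η : ℤ → Lt | ∀ k : ℤ, |k| ≤ ((r + 1 : ℕ) : ℤ) → η k = ξ k} ∈ 𝓝 ξ :=
    (Co_window_open ξ (r + 1)).mem_nhds fun k _ => rfl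
  filter_upwards [mem_nhdsWithin_of_mem_nhds h1, self_mem_nhdsWithin] with η h2 h3
  refine lt_of_le_of_lt (pt_dist F ha h3 hξ (r := r) fun k hk => h2 k ?_) (by linarith)
  push_cast
  exact hk

/-- the centre orbit as a sequence of points of words (`xs_shift`) -/
theorem pt_shift (F : Fam) {a : Fin 8 → ℝ} (ha : Cube a) {s : ℤ → Lt} (hs : Adm (symOf s))
    (n : ℤ) : pt F a (shiftW s n) = (xs F a (symOf s) n, xs F a (symOf s) (n - 1)) := by
  have h1 := (xs_shift F ha hs n 0).1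
  have h2 := (xs_shift F ha hs n (-1)).1
  rw [zero_add] at h1
  rw [show (-1 : ℤ) + n = n - 1 by ring] at h2
  exact Prod.ext h1 h2

end Pool.Agent.WildW
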