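import Pool.Agent.Lib.MP_3dbc4a_an_WL.Cl
import Pool.Agent.Lib.MP_3dbc4a_an_WL.Co

/-!
# MP_3dbc4a_an, project W, block L: omega-limit sets
-/

set_option autoImplicit false

open Filter Set
open scoped Topology

namespace Pool.Agent.WildW

/-- The points of the shifted words along a subsequence: if the windows of `s` at the times
`n (φ q)` agree eventually with `ξ` then the points converge. Proof: for `ε` take `r` with
`8 (2^-19)^r < ε`, the window `r + 1`, `pt_dist` for `shiftW s (n (φ q))` and `ξ` (`adm_shift`,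
`shiftW s m k = s (k + m)`). -/
theorem pt_tendsto (F : Fam) {a : Fin 8 → ℝ} (ha : Cube a) {s ξ : ℤ → Lt} (hs : Adm (symOf s))
    (hξ : Adm (symOf ξ)) {m : ℕ → ℕ}
    (h : ∀ r : ℕ, ∀ᶠ q in atTop, ∀ k : ℤ, |k| ≤ r → s (m q + k) = ξ k) :
    Tendsto (fun q => pt F a (shiftW s (m q))) atTop (𝓝 (pt F a ξ)) := by
  refine Metric.tendsto_nhds.2 fun ε hε => ?_
  obtain ⟨r, hr⟩ := exists_pow_lt_of_lt_one (show (0 : ℝ) < ε / 8 by positivity)
    (show ((1 : ℝ) / 2 ^ 19) < 1 by norm_num)
  filter_upwards [h (r + 1)] with q hq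
  refine lt_of_le_of_lt (pt_dist F ha (adm_shift hs (m q)) hξ (r := r) fun k hk => ?_)
    (by linarith)
  change s (k + m q) = ξ k
  rw [add_comm]
  exact hq k (by push_cast; exact hk)

/-- Cluster points of the sequence of the points of the shifts of an admissible word `s` are the
points of its limit words. Proof. (⊆) a cluster point `w` is the limit along some `φ₀` strictly
monotone (`MapClusterPt` in a first countable space:
`TopologicalSpace.FirstCountableTopology.tendsto_subseq` or `MapClusterPt.tendsto_subseq`);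
`LL_cluster` for `n = φ₀` and `pt_tendsto`, uniqueness of limits. (⊇) `ξ ∈ LL s`: choose `m r ≥
r` with the window `r` (definition of `LL`), `pt_tendsto`; `m` tends to infinity, so the limit
is a cluster point (`MapClusterPt.of_comp`, `Tendsto.mapClusterPt`). -/
theorem cluster_pt (F : Fam) {a : Fin 8 → ℝ} (ha : Cube a) {s : ℤ → Lt} (hs : Adm (symOf s))
    (w : ℝ × ℝ) : MapClusterPt w atTop (fun n : ℕ => pt F a (shiftW s n)) ↔
      w ∈ pt F a '' LL s := by
  constructor
  · intro h
    obtain ⟨φ₀, hφ₀, hlim⟩ := h.tendsto_subseq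
    obtain ⟨ξ, hξ, φ, hφ, hq⟩ := LL_cluster s hφ₀.tendsto_atTop
    have h1 := pt_tendsto F ha hs (LL_adm hs hξ) (m := fun q => φ₀ (φ q)) hq
    exact ⟨ξ, hξ, tendsto_nhds_unique h1 (hlim.comp hφ.tendsto_atTop)⟩
  · rintro ⟨ξ, hξ, rfl⟩
    choose m hm1 hm2 using fun r : ℕ => hξ r r
    have h1 : Tendsto m atTop atTop := tendsto_atTop_mono hm1 tendsto_id
    have h2 := pt_tendsto F ha hs (LL_adm hs hξ) (m := m) (fun r => by
      filter_upwards [eventually_ge_atTop r] with q hq k hk
      exact hm2 q k (hk.trans (by exact_mod_cast hq)))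
    exact MapClusterPt.of_comp h1 h2.mapClusterPt

/-- the points of the shifts of `s` tend to the set of the points of its limit words. Proof: by
contradiction: `ε > 0` and times `φ₀` strictly monotone with `infDist ≥ ε`
(`Filter.extraction_of_frequently_atTop`); `LL_cluster` and `pt_tendsto` give a subsequence which
converges to a point of the set; `Metric.infDist_le_dist_of_mem`. -/
theorem infDist_pt (F : Fam) {a : Fin 8 → ℝ} (ha : Cube a) {s : ℤ → Lt} (hs : Adm (symOf s)) :
    Tendsto (fun n : ℕ => Metric.infDist (pt F a (shiftW s n)) (pt F a '' LL s)) atTop (𝓝 0) := by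
  by_contra hcon
  rw [Metric.tendsto_nhds] at hcon
  push Not at hcon
  obtain ⟨ε, hε, h1⟩ := hcon
  obtain ⟨φ₀, hφ₀, h2⟩ := extraction_of_frequently_atTop h1
  obtain ⟨ξ, hξ, φ, hφ, hq⟩ := LL_cluster s hφ₀.tendsto_atTop
  have h3 := pt_tendsto F ha hs (LL_adm hs hξ) (m := fun q => φ₀ (φ q)) hq
  obtain ⟨q, h4⟩ := ((Metric.tendsto_nhds.1 h3) ε hε).exists
  have h5 := Metric.infDist_le_dist_of_mem (x := pt F a (shiftW s (φ₀ (φ q))))
    (mem_image_of_mem (pt F a) hξ)
  have h6 := h2 (φ q)
  rw [Real.dist_eq, sub_zero, abs_of_nonneg Metric.infDist_nonneg] at h6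
  linarith

end Pool.Agent.WildW
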