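import Pool.Agent.Lib.MP_3dbc4a_an_WL.Go
import Pool.Agent.Lib.MP_3dbc4a_an_WL.Om
import Pool.Agent.Lib.MP_3dbc4a_an_WL.Pm

/-!
# MP_3dbc4a_an, project W, block L: the omega-limit sets
-/

set_option autoImplicit false

open Filter Set
open scoped Topology

namespace Pool.Agent.WildW

section

variable {F : Fam} {a : Fin 8 → ℝ} {E : ℕ → List KA} {B : ℕ → List KB} {u : ℕ → List Pl}

/-- two sequences whose distance tends to `0` have the same cluster points -/
private theorem Nt_cluster {x y : ℕ → ℝ × ℝ}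
    (h : Tendsto (fun n => dist (x n) (y n)) atTop (𝓝 0)) {w : ℝ × ℝ}
    (hw : MapClusterPt w atTop x) : MapClusterPt w atTop y := by
  rw [mapClusterPt_iff_frequently] at hw ⊢
  intro S hS
  obtain ⟨ε, hε, hb⟩ := Metric.mem_nhds_iff.1 hS
  have h1 : ∀ᶠ n in atTop, dist (x n) (y n) < ε / 2 :=
    h.eventually (gt_mem_nhds (by linarith))
  refine ((hw _ (Metric.ball_mem_nhds w (by linarith : 0 < ε / 2))).and_eventually h1).mono ?_
  rintro n ⟨h2, h3⟩
  refine hb ?_
  rw [Metric.mem_ball] at h2 ⊢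
  have h4 := dist_triangle_left (y n) w (x n)
  linarith

/-- **L10** every point whose orbit is asymptotic to the centre orbit has the `ω`-limit set `Λ`, and
its orbit tends to `Λ`. Proof. The centre orbit at `n` is `pt (shiftW s n)` (`pt_shift`,
`Chain.adm`). Two sequences whose distance tends to `0` have the same cluster points (along a
subsequence both converge to the same limit), `cluster_pt`. `infDist_pt` and
`Metric.infDist_le_infDist_add_dist`. -/
theorem omega_centre (hC : Chain F a E B u) {z : ℝ × ℝ}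
    (hz : Tendsto (fun n : ℕ => dist ((F.map a)^[n] z)
      (xs F a (symOf (itinI E B u)) n, xs F a (symOf (itinI E B u)) ((n : ℤ) - 1))) atTop (𝓝 0)) :
    Wild.omegaSet (F.map a) z = pt F a '' LL (itinI E B u) ∧
    Tendsto (fun n : ℕ => Metric.infDist ((F.map a)^[n] z) (pt F a '' LL (itinI E B u))) atTop
      (𝓝 0) := by
  have hA := hC.adm
  have e1 : ∀ n : ℕ, pt F a (shiftW (itinI E B u) n) =
      (xs F a (symOf (itinI E B u)) n, xs F a (symOf (itinI E B u)) ((n : ℤ) - 1)) :=
    fun n => pt_shift F hC.cube hA n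
  simp only [← e1] at hz
  have hz' : Tendsto (fun n : ℕ => dist (pt F a (shiftW (itinI E B u) n)) ((F.map a)^[n] z))
      atTop (𝓝 0) := by
    simpa only [dist_comm] using hz
  refine ⟨?_, ?_⟩
  · ext w
    rw [← cluster_pt F hC.cube hA w]
    exact ⟨Nt_cluster hz, Nt_cluster hz'⟩
  · have h1 := (infDist_pt F hC.cube hA).add hz
    rw [add_zero] at h1
    exact squeeze_zero (fun n => Metric.infDist_nonneg)
      (fun n => Metric.infDist_le_infDist_add_dist) h1

/-- the orbit of the point of a good word -/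
private theorem Nt_iter (ha : Cube a) {ξ : ℤ → Lt} (hξ : GoodW F a ξ) (n : ℕ) :
    (F.map a)^[n] (pt F a ξ) = pt F a (shiftW ξ n) := by
  induction n with
  | zero =>
    have : shiftW ξ ((0 : ℕ) : ℤ) = ξ := by
      funext k
      show ξ (k + ((0 : ℕ) : ℤ)) = ξ k
      rw [Nat.cast_zero, add_zero]
    rw [this]
    rfl
  | succ n ih =>
    rw [Function.iterate_succ_apply', ih, map_pt F ha (good_shift F ha hξ n)]
    congr 1
    funext k
    show ξ (k + 1 + (n : ℤ)) = ξ (k + ((n + 1 : ℕ) : ℤ))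
    congr 1
    push_cast
    ring

/-- the limit words of a good word are plain -/
private theorem Nt_plain {ξ ζ : ℤ → Lt} (hξ : GoodW F a ξ) (hζ : ζ ∈ LL ξ) (k : ℤ) :
    ∃ c, ζ k = .p c := by
  obtain ⟨t, ht⟩ : ∃ t : ℤ, ∀ n, t < n → ∃ c, ξ n = .p c := by
    rcases hξ.2 with h | ⟨t, i, -, -, h, -, -⟩
    · exact ⟨0, fun n _ => h n⟩
    · exact ⟨t, fun n hn => by
        obtain ⟨j, hj⟩ := h n hn
        exact ⟨_, hj⟩⟩
  obtain ⟨n, hn, hw⟩ := hζ k.natAbs (t + 1 + |k|).toNat
  have h1 : |k| ≤ (k.natAbs : ℤ) := by rw [Int.natCast_natAbs]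
  rw [← hw k h1]
  refine ht _ ?_
  have h2 : t + 1 + |k| ≤ (n : ℤ) := Int.toNat_le.1 hn
  have h3 := neg_abs_le k
  linarith

/-- **L11** no point of `Λ` has the `ω`-limit set `Λ`. Proof. `z = pt ξ`, `f^n(z) = pt (shiftW ξ n)`
(induction: `map_pt`, `good_shift`, `LL_good`), so `omegaSet z` is the set of the points of the
limit words of `ξ` (`cluster_pt` for `s = ξ`). `ξ` is plain from some index on (`GoodW`), so the
limit words of `ξ` are plain, and admissible (`LL_adm`), so good. If `omegaSet z = Λ`, the point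
of a limit word with a fold at `0` (`fold_mem`, good by `LL_good`) is the point of a plain word,
against `pt_inj`. -/
theorem lambda_not_transitive (hC : Chain F a E B u) {z : ℝ × ℝ}
    (hz : z ∈ pt F a '' LL (itinI E B u)) :
    Wild.omegaSet (F.map a) z ≠ pt F a '' LL (itinI E B u) := by
  obtain ⟨ξ, hξ, rfl⟩ := hz
  have hgood := LL_good hC hξ
  intro he
  obtain ⟨η, hη, i, hi⟩ := fold_mem hC
  have h1 : pt F a η ∈ Wild.omegaSet (F.map a) (pt F a ξ) := by
    rw [he]
    exact ⟨η, hη, rfl⟩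
  have h2 : MapClusterPt (pt F a η) atTop (fun n : ℕ => (F.map a)^[n] (pt F a ξ)) := h1
  have h3 : (fun n : ℕ => (F.map a)^[n] (pt F a ξ)) = fun n : ℕ => pt F a (shiftW ξ n) :=
    funext fun n => Nt_iter hC.cube hgood n
  rw [h3, cluster_pt F hC.cube hgood.1] at h2
  obtain ⟨ζ, hζ, hpt⟩ := h2
  have h4 : GoodW F a ζ := ⟨LL_adm hgood.1 hζ, Or.inl (Nt_plain hgood hζ)⟩
  have h5 := pt_inj F hC.cube h4 (LL_good hC hη) hpt
  obtain ⟨c, hc⟩ := Nt_plain hgood hζ 0
  rw [h5, hi] at hc
  exact absurd hc (by simp)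

end

end Pool.Agent.WildW
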