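import Pool.Agent.Lib.MP_3dbc4a_an_WS.Defs

/-!
# MP_3dbc4a_an, project W, block L: a list of all plain words
-/

set_option autoImplicit false

open Filter Set
open scoped Topology

namespace Pool.Agent.WildW

private instance uu_countable : Countable Pl := by
  have h : Function.Injective (fun c : Pl => match c with
      | .e c => (Sum.inl c : KA ⊕ (KB ⊕ Unit))
      | .f j => Sum.inr (Sum.inl j)
      | .g => Sum.inr (Sum.inr ())) := by
    intro c c' hc
    cases c <;> cases c' <;> simp_all
  exact h.countable

private theorem uu_nil : AdmL [] := by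
  intro n c c' j h
  simp at h

/-- **L0** a list of plain words of length `≤ j` in which every admissible word occurs infinitely
often. Proof: `Pl` is countable (it is finite: surjection from `KA ⊕ KB ⊕ Unit`), so
`List Pl` is countable and infinite or at least nonempty: `exists_surjective_nat (List Pl)` gives
`f : ℕ → List Pl` surjective. `u j = f (Nat.unpair j).1` if this word is admissible and of length
`≤ j`, otherwise `[]` (`open Classical`, `if then else`); `AdmL []` is trivial. For `w = f e` take
`j = Nat.pair e k` with `k ≥ N` and `k ≥ w.length` (`Nat.right_le_pair`). -/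
theorem exists_uu : ∃ u : ℕ → List Pl, (∀ j, (u j).length ≤ j) ∧ (∀ j, AdmL (u j)) ∧
    ∀ w, AdmL w → ∀ N, ∃ j, N ≤ j ∧ u j = w := by
  classical
  obtain ⟨f, hf⟩ := exists_surjective_nat (List Pl)
  refine ⟨fun j => if AdmL (f (Nat.unpair j).1) ∧ (f (Nat.unpair j).1).length ≤ j then
    f (Nat.unpair j).1 else [], fun j => ?_, fun j => ?_, fun w hw N => ?_⟩
  · by_cases h : AdmL (f (Nat.unpair j).1) ∧ (f (Nat.unpair j).1).length ≤ j
    · simp only [if_pos h]
      exact h.2
    · simp only [if_neg h]
      exact Nat.zero_le _
  · by_cases h : AdmL (f (Nat.unpair j).1) ∧ (f (Nat.unpair j).1).length ≤ j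
    · simp only [if_pos h]
      exact h.1
    · simp only [if_neg h]
      exact uu_nil
  · obtain ⟨e, he⟩ := hf w
    have h1 : max N w.length ≤ Nat.pair e (max N w.length) := Nat.right_le_pair _ _
    refine ⟨Nat.pair e (max N w.length), (le_max_left _ _).trans h1, ?_⟩
    have h2 : (Nat.unpair (Nat.pair e (max N w.length))).1 = e := by
      rw [Nat.unpair_pair]
    simp only [h2, he]
    rw [if_pos ⟨hw, (le_max_right _ _).trans h1⟩]

end Pool.Agent.WildW
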