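import Pool.Agent.Lib.MP_3dbc4a_an_WL.Base
import Pool.Agent.Lib.MP_3dbc4a_an_WL.Uu
import Pool.Agent.Lib.MP_3dbc4a_an_WS.Chain

/-!
# MP_3dbc4a_an, project W, block L: all modules
-/

set_option autoImplicit false

namespace Pool.Agent.WildW

/-- **L12** the data exist (S16 and L0). -/
theorem exists_chain (F : Fam) : ∃ a E B u, Chain F a E B u := by
  obtain ⟨u, hu1, hu2, hu3⟩ := exists_uu
  obtain ⟨a, E, B, h1, h2, h3, h4, h5, h6, h7, h8⟩ := chain F hu1 hu2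
  exact ⟨a, E, B, u, h1, h2, h3, h4, h5, h6, h7, h8, hu1, hu2, hu3⟩

end Pool.Agent.WildW
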