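import Pool.Agent.Lib.MP_3dbc4a_an_WL.Cl
import Pool.Agent.Lib.MP_3dbc4a_an_WL.It
import Pool.Agent.Lib.MP_3dbc4a_an_WO.OSf
import Pool.Agent.Lib.MP_3dbc4a_an_WS.NumB

/-!
# MP_3dbc4a_an, project W, block L: limit words with a given parent and side
-/

set_option autoImplicit false

open Filter Set
open scoped Topology

namespace Pool.Agent.WildW

section

variable {F : Fam} {a : Fin 8 → ℝ} {E : ℕ → List KA} {B : ℕ → List KB} {u : ℕ → List Pl}

/-- The itinerary around a junction `c` with parent `j` agrees with the itinerary around `j` on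
`[-nn j, 6 nn j]`. Proof. `k = 0`: `itinI_at`, `fo c = fo j` (`par_mod`). `k < 0`: `itinI_past`
for both; `extE (E c) k' = extE (E j) k'` for `k' < nn j` since `E j <+: E c` (`trE`,
`List.IsPrefix.getElem`, or `obtain ⟨t, ht⟩`, `E c = E j ++ t`, `List.getD_append`), `nn j < nn
c` (`par_le`, `nn_strict`). `k > 0`: `itinI_fut` for both, `B j <+: B c`. -/
theorem itinI_child (hC : Chain F a E B u) {c : ℕ} (hc : 8 ≤ c) {k : ℤ}
    (h1 : -(nn (par c) : ℤ) ≤ k) (h2 : k ≤ 6 * nn (par c)) :
    itinI E B u (TT c + k) = itinI E B u (TT (par c) + k) := by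
  have hp := par_le hc
  have hlt : nn (par c) < nn c := nn_strict (by omega)
  rcases lt_trichotomy k 0 with hk | hk | hk
  · obtain ⟨m, hm⟩ := Int.eq_ofNat_of_zero_le (a := -k - 1) (by omega)
    have hm1 : m < nn (par c) := by omega
    have e1 : TT c + k = TT c - m - 1 := by omega
    have e2 : TT (par c) + k = TT (par c) - m - 1 := by omega
    rw [e1, e2, itinI_past hC (hm1.trans hlt), itinI_past hC hm1]
    obtain ⟨t, ht⟩ := hC.trE c hc
    have h3 : m < (E (par c)).length := by rw [hC.lenE]; exact hm1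
    have h4 : extE (E c) m = extE (E (par c)) m := by
      rw [extE, extE, ← ht]
      exact List.getD_append _ _ _ _ h3
    rw [h4]
  · subst hk
    rw [add_zero, add_zero, itinI_at hC, itinI_at hC]
    have h3 : fo c = fo (par c) := Fin.ext (par_mod c).symm
    rw [h3]
  · obtain ⟨m, hm⟩ := Int.eq_ofNat_of_zero_le (a := k - 1) (by omega)
    have hm1 : m < 6 * nn (par c) := by omega
    have hm2 : m < 6 * nn c := by omega
    have e1 : TT c + k = TT c + m + 1 := by omega
    have e2 : TT (par c) + k = TT (par c) + m + 1 := by omega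
    rw [e1, e2, itinI_fut hC hm2, itinI_fut hC hm1]
    obtain ⟨t, ht⟩ := hC.trB c hc
    have h3 : m < (B (par c)).length := by rw [hC.lenB]; exact hm1
    have h4 : (B c).getD m mid = (B (par c)).getD m mid := by
      rw [← ht]
      exact List.getD_append _ _ _ _ h3
    rw [h4]

/-- the letter before the common past: `itinI_past` with `k = nn (par c) < nn c`, `trS` -/
theorem itinI_side (hC : Chain F a E B u) {c : ℕ} (hc : 8 ≤ c) :
    ∃ v : KA, itinI E B u (TT c - nn (par c) - 1) = .p (.e v) ∧ side v = sd c := by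
  have hp := par_le hc
  have hlt : nn (par c) < nn c := nn_strict (by omega)
  exact ⟨extE (E c) (nn (par c)), itinI_past hC hlt, hC.trS c hc⟩

/-- For every junction `j` and every side there is a limit word which agrees with the itinerary
around `j` on `[-nn j, 6 nn j]` and has at `-nn j - 1` a letter of that side. Proof. By
`par_inf` there are junctions `c q ≥ q`, `c q ≥ 8`, with parent `j` and side `x` (`choose`).
`LL_cluster` for the times `(TT (c q)).toNat` (`TT_ge`) gives `ξ`; take the window `r = 6 nn j +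
nn j + 1` and one large `q`: `itinI_child`, `itinI_side`. -/
theorem LL_child (hC : Chain F a E B u) (j : ℕ) (x : Bool) :
    ∃ ξ ∈ LL (itinI E B u),
      (∀ k : ℤ, -(nn j : ℤ) ≤ k → k ≤ 6 * nn j → ξ k = itinI E B u (TT j + k)) ∧
      ∃ v : KA, ξ (-(nn j : ℤ) - 1) = .p (.e v) ∧ side v = x := by
  choose c hc1 hc2 hc3 hc4 using fun q : ℕ => par_inf j x q
  have hTT : ∀ q, (((TT (c q)).toNat : ℕ) : ℤ) = TT (c q) := fun q =>
    Int.toNat_of_nonneg (le_trans (Int.natCast_nonneg _) (TT_ge (c q)))
  have htend : Tendsto (fun q => (TT (c q)).toNat) atTop atTop := by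
    refine tendsto_atTop_mono (fun q => ?_) tendsto_id
    have h1 := TT_ge (c q)
    have h2 := hTT q
    have h3 := hc1 q
    show q ≤ (TT (c q)).toNat
    omega
  obtain ⟨ξ, hξ, φ, -, hw⟩ := LL_cluster (itinI E B u) htend
  obtain ⟨q, hq⟩ := (hw (6 * nn j + nn j + 1)).exists
  rw [hTT] at hq
  refine ⟨ξ, hξ, fun k h1 h2 => ?_, ?_⟩
  · have h3 : |k| ≤ ((6 * nn j + nn j + 1 : ℕ) : ℤ) := by
      rw [abs_le]
      push_cast
      constructor <;> omega
    rw [← hq k h3, itinI_child hC (hc2 _) (by rw [hc3]; exact h1) (by rw [hc3]; exact h2), hc3]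
  · obtain ⟨v, hv1, hv2⟩ := itinI_side hC (hc2 (φ q))
    rw [hc3] at hv1
    rw [hc4] at hv2
    refine ⟨v, ?_, hv2⟩
    have h3 : |(-(nn j : ℤ) - 1)| ≤ ((6 * nn j + nn j + 1 : ℕ) : ℤ) := by
      rw [abs_le]
      push_cast
      constructor <;> omega
    rw [← hq _ h3, ← hv1]
    congr 1
    ring

end

end Pool.Agent.WildW
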